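import Pool.Agent.Helper33.KV.GoalsF2

/-!
MP_66be51_an, packet KV-F-BOOTC: abstract continuity argument.
-/

set_option autoImplicit false

namespace Pool.Agent.Helper33.KV

open Pool.Agent.Helper41.KV

/-- packet BOOTC -/
theorem thm_BOOTC : S_BOOTC := by
  intro m t1 t2 f g h12 hf hg h0 hstep
  by_contra hcon
  -- the bad set
  set B : Set ℝ := ⋃ i : Fin m, {t ∈ Set.Icc t1 t2 | g i t ≤ f i t} with hB
  have hBne : B.Nonempty := by
    by_contra hne
    apply hcon
    intro t ht i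
    by_contra hlt
    exact hne ⟨t, Set.mem_iUnion.2 ⟨i, ht, not_lt.1 hlt⟩⟩
  have hBc : IsCompact B := by
    refine isCompact_iUnion fun i => ?_
    refine isCompact_Icc.of_isClosed_subset ?_ (fun t ht => ht.1)
    exact isClosed_Icc.isClosed_le (hg i) (hf i)
  obtain ⟨ts, htsB, htsmin⟩ := hBc.exists_isLeast hBne
  obtain ⟨i0, hts, hle0⟩ := Set.mem_iUnion.1 htsB
  have hlt : t1 < ts := by
    rcases hts.1.eq_or_lt with h | h
    · exfalso
      rw [← h] at hle0
      exact absurd (h0 i0) (not_lt.2 hle0)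
    · exact h
  have hbelow : ∀ i, ∀ s ∈ Set.Ico t1 ts, f i s ≤ g i s := by
    intro i s hs
    by_contra hgt
    have hsB : s ∈ B := Set.mem_iUnion.2
      ⟨i, ⟨hs.1, (hs.2.le).trans hts.2⟩, (not_le.1 hgt).le⟩
    exact absurd (htsmin hsB) (not_le.2 hs.2)
  have hall : ∀ s ∈ Set.Icc t1 ts, ∀ i, f i s ≤ g i s := by
    intro s hs i
    have hcl : closure (Set.Ico t1 ts) = Set.Icc t1 ts := closure_Ico hlt.ne
    have hsub : Set.Icc t1 ts ⊆ Set.Icc t1 t2 := Set.Icc_subset_Icc le_rfl hts.2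
    exact le_on_closure (hbelow i) (by rw [hcl]; exact (hf i).mono hsub)
      (by rw [hcl]; exact (hg i).mono hsub) (by rw [hcl]; exact hs)
  exact absurd (hstep ts ⟨hlt, hts.2⟩ hall i0) (not_lt.2 hle0)

end Pool.Agent.Helper33.KV
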